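import Mathlib

namespace Pool.Agent.Results.MP_0067de_an.Counter

open MeasureTheory Set
open scoped ENNReal NNReal

/-- the maximal operator of convolution type with kernel `φ` -/
noncomputable def M (φ f : ℝ → ℝ) (x : ℝ) : ℝ :=
  ⨆ t : Ioi (0 : ℝ), ∫ y, (t : ℝ)⁻¹ * φ (y / t) * |f (x - y)|

theorem result : ∃ φ : ℝ → ℝ, (∀ x, 0 ≤ φ x) ∧ Integrable φ ∧ ∫ x, φ x = 1 ∧
    (∀ x, φ (-x) = φ x) ∧ ∀ C : ℝ≥0, ∃ f : ℝ → ℝ, BoundedVariationOn f univ ∧
      C * eVariationOn f univ < eVariationOn (M φ f) univ := by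
  let n : ℕ → ℕ := fun k => (k + 1) * 2 ^ (k + 7)
  let r : ℕ → ℝ := fun k => 1 / (1024 * (n k : ℝ) ^ 2)
  have n1 : ∀ k, (1 : ℝ) ≤ n k := fun k => by exact_mod_cast Nat.pos_of_ne_zero (by positivity)
  have r0 : ∀ k, 0 < r k := fun k => by have := n1 k; positivity
  have r1 : ∀ k, r k ≤ 1 / 2 := fun k =>
    one_div_le_one_div_of_le two_pos (by nlinarith [n1 k])
  let ε : ℕ → ℝ := fun k => ∏ j ∈ Finset.range k, r j
  have e0 : ∀ k, 0 < ε k := fun k => Finset.prod_pos fun j _ => r0 j
  have e1 : ∀ k, ε (k + 1) = ε k * r k := fun k => Finset.prod_range_succ _ _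
  have e2 : Antitone ε := antitone_nat_of_succ_le fun k => by
    rw [e1]; nlinarith [e0 k, r1 k]
  have e3 : ∀ k, ε k ≤ 1 := fun k => (e2 (Nat.zero_le k)).trans (by simp [ε])
  have e4 : ∀ k, ε k ≤ (1 / 2) ^ k := fun k => by
    simpa using Finset.prod_le_prod (s := Finset.range k) (fun j _ => (r0 j).le) fun j _ => r1 j
  let g : ℕ → ℝ → ℝ := fun k => (Ioc 0 (ε k)).indicator fun _ => 1 / 2 / 2 ^ k / ε k
  have g0 : ∀ k s, 0 ≤ g k s := fun k s => indicator_nonneg (fun _ _ => by have := e0 k; positivity) _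
  have gi : ∀ k, Integrable (g k) := fun k =>
    (integrableOn_const (by simp)).integrable_indicator measurableSet_Ioc
  have gv : ∀ k, ∫ s, g k s = 1 / 2 / 2 ^ k := fun k => by
    have := e0 k
    rw [integral_indicator_const _ measurableSet_Ioc, Real.volume_real_Ioc_of_le this.le]
    simp only [smul_eq_mul]; field_simp; simp
  have gb : ∀ k s, ε (k + 1) < s → ∀ j, g j s ≤ 1 / 2 / 2 ^ j / ε k := fun k s h j => by
    by_cases hj : s ∈ Ioc 0 (ε j)
    · have : j ≤ k := by
        by_contra c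
        linarith [e2 (show k + 1 ≤ j by omega), hj.2]
      simp only [g, indicator_of_mem hj]
      exact div_le_div_of_nonneg_left (by positivity) (e0 k) (e2 this)
    · have := e0 k
      simp only [g, indicator_of_notMem hj]; positivity
  have sg : ∀ c : ℝ, HasSum (fun j : ℕ => 1 / 2 / 2 ^ j / c) (1 / c) := fun c =>
    (hasSum_geometric_two' 1).div_const c
  have gs : ∀ s, Summable fun j => g j s := fun s => by
    rcases le_or_gt s 0 with h | h
    · have : ∀ j, g j s = 0 := fun j => indicator_of_notMem (fun c => by linarith [c.1]) _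
      simp [this, summable_zero]
    · obtain ⟨k, hk⟩ := exists_pow_lt_of_lt_one h (show (1 / 2 : ℝ) < 1 by norm_num)
      exact Summable.of_nonneg_of_le (fun j => g0 j s)
        (gb k s (((e2 k.le_succ).trans (e4 k)).trans_lt hk)) (sg _).summable
  let γ : ℝ → ℝ := fun s => ∑' j, g j s
  have γ0 : ∀ s, 0 ≤ γ s := fun s => tsum_nonneg fun j => g0 j s
  have γ1 : ∫ s, γ s = 1 := by
    have := hasSum_integral_of_summable_integral_norm gi (by
      simp only [Real.norm_of_nonneg (g0 _ _), gv]; exact (hasSum_geometric_two' 1).summable)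
    simp only [gv] at this
    exact this.unique (hasSum_geometric_two' 1)
  have γi : Integrable γ := Integrable.of_integral_ne_zero (by rw [γ1]; norm_num)
  have γz : ∀ s, s ∉ Ioc (0 : ℝ) 1 → γ s = 0 := fun s h => by
    have : ∀ j, g j s = 0 := fun j => indicator_of_notMem (fun c => h ⟨c.1, c.2.trans (e3 j)⟩) _
    simp [γ, this]
  have hi : ∀ F : ℝ → ℝ, Integrable F → Integrable (fun y => F (y - 1)) ∧
      Integrable (fun y => F (-y - 1)) ∧ ∫ y, F (y - 1) = ∫ y, F y ∧ ∫ y, F (-y - 1) = ∫ y, F y :=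
    fun F h => ⟨h.comp_sub_right 1, (h.comp_sub_right 1).comp_neg, integral_sub_right_eq_self _ _,
      (integral_neg_eq_self (fun y => F (y - 1)) _).trans (integral_sub_right_eq_self _ _)⟩
  obtain ⟨a1, a2, a3, a4⟩ := hi γ γi
  let φ : ℝ → ℝ := fun y => (γ (y - 1) + γ (-y - 1)) / 2
  have φ0 : ∀ y, 0 ≤ φ y := fun y => by have := γ0 (y - 1); have := γ0 (-y - 1); positivity
  have φi : Integrable φ := (a1.add a2).div_const 2
  have φ1 : ∫ y, φ y = 1 := by
    rw [integral_div, integral_add a1 a2, a3, a4, γ1]; norm_num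
  refine ⟨φ, φ0, φi, φ1, fun x => by simp only [φ, neg_neg, add_comm], fun C => ?_⟩
  obtain ⟨k, hk⟩ := exists_nat_gt (C : ℝ)
  set N := n k with hN
  set e := ε (k + 1) with he
  have he0 : 0 < e := e0 _
  have N1 : (1 : ℝ) ≤ N := n1 k
  have hr : r k * (N : ℝ) ^ 2 = 1 / 1024 := by have := n1 k; simp only [r, hN]; field_simp
  have eN : e * (N : ℝ) ^ 2 ≤ 1 / 1024 := by
    rw [he, e1, mul_assoc, hr]; linarith [e3 k]
  let γ' : ℝ → ℝ := (Ioc 0 e).indicator γ
  have γ'i : Integrable γ' := γi.indicator measurableSet_Ioc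
  have γ'0 : ∀ s, 0 ≤ γ' s := fun s => indicator_nonneg (fun s _ => γ0 s) _
  have γ'1 : ∀ s, γ' s ≤ γ s := fun s => indicator_le_self' (fun s _ => γ0 s) _
  obtain ⟨b1, b2, b3, b4⟩ := hi γ' γ'i
  set m := ∫ s, γ' s with hm
  have m0 : 1 / 2 / 2 ^ (k + 1) ≤ m := by
    rw [← gv]
    refine integral_mono (gi _) γ'i fun s => ?_
    by_cases h : s ∈ Ioc 0 e
    · simp only [γ', indicator_of_mem h]
      exact (gs s).le_tsum (k + 1) fun j _ => g0 j s
    · exact (indicator_of_notMem h _).le.trans (γ'0 s)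
  have m1 : 32 * (k + 1) ≤ N * m := by
    refine le_trans (le_of_eq ?_) (mul_le_mul_of_nonneg_left m0 (by positivity))
    simp only [hN, n]; push_cast; field_simp; ring
  have γb : ∀ s, γ s ≤ γ' s + 1 / ε k := fun s => by
    have := e0 k
    by_cases h : s ∈ Ioc 0 e
    · simp only [γ', indicator_of_mem h, le_add_iff_nonneg_right]; positivity
    · rcases le_or_gt s 0 with c | c
      · rw [γz s fun d => by linarith [d.1]]; have := γ'0 s; positivity
      · have := ((gs s).tsum_le_tsum (gb k s (not_le.1 fun d => h ⟨c, d⟩)) (sg _).summable).trans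
          (sg _).tsum_eq.le
        linarith [γ'0 s]
  let α : ℕ × Bool → ℝ := fun z => if z.2 then 2 + z.1 * (16 * e) else -2 + z.1 * N * (16 * e) - 3 * e
  let I := Finset.range N ×ˢ (Finset.univ : Finset Bool)
  have cI : (I.card : ℝ) = 2 * N := by simp [I, mul_comm]
  let J : ℕ × Bool → ℝ → ℝ := fun z => (Icc (α z) (α z + 3 * e)).indicator 1
  let S : ℝ → ℝ := fun x => ∑ z ∈ I, J z x
  have J0 : ∀ z x, 0 ≤ J z x := fun z x => indicator_nonneg (fun _ _ => zero_le_one) _
  have S0 : ∀ x, 0 ≤ S x := fun x => Finset.sum_nonneg fun z _ => J0 z x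
  have Ji : ∀ z, Integrable (J z) := fun z =>
    (integrableOn_const measure_Icc_lt_top.ne).integrable_indicator measurableSet_Icc
  have Si : Integrable S := integrable_finsetSum _ fun z _ => Ji z
  have Sv : ∫ x, S x = 6 * N * e := by
    rw [integral_finsetSum _ fun z _ => Ji z]
    simp only [J, integral_indicator_one measurableSet_Icc,
      Real.volume_real_Icc_of_le (le_add_of_nonneg_right (by positivity : 0 ≤ 3 * e))]
    simp only [add_sub_cancel_left, Finset.sum_const, nsmul_eq_mul, cI]; ring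
  let f : ℝ → ℝ := fun x => min 1 (S x)
  have f0 : ∀ x, 0 ≤ f x := fun x => le_min zero_le_one (S0 x)
  have f1 : ∀ x, f x ≤ 1 := fun x => min_le_left _ _
  have fm : Measurable f := measurable_const.min
    (Finset.measurable_sum _ fun z _ => measurable_const.indicator measurableSet_Icc)
  have fo : ∀ z ∈ I, ∀ x ∈ Icc (α z) (α z + 3 * e), f x = 1 := fun z hz x hx =>
    min_eq_left (le_trans (indicator_of_mem hx (1 : ℝ → ℝ)).ge
      (Finset.single_le_sum (f := fun z => J z x) (fun z _ => J0 z x) hz))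
  have fz : ∀ x, f x ≠ 0 → ∃ i : ℕ, i < N ∧ (2 + i * (16 * e) ≤ x ∧ x ≤ 2 + i * (16 * e) + 3 * e ∨
      -2 + i * N * (16 * e) - 3 * e ≤ x ∧ x ≤ -2 + i * N * (16 * e)) := fun x h => by
    have : S x ≠ 0 := fun c => h (by simp [f, c])
    obtain ⟨⟨i, b⟩, hz, h1⟩ := Finset.exists_ne_zero_of_sum_ne_zero this
    have h2 := mem_of_indicator_ne_zero h1
    refine ⟨i, by simpa [I] using hz, ?_⟩
    cases b
    · right; simpa [α] using h2
    · left; simpa [α] using h2
  have bd : ∀ i : ℕ, i < N → 0 ≤ (i : ℝ) * (16 * e) ∧ i * (16 * e) ≤ i * N * (16 * e) ∧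
      i * N * (16 * e) ≤ 1 / 64 ∧ e ≤ 1 / 1024 := fun i h => by
    have : (i : ℝ) ≤ N := by exact_mod_cast h.le
    have : 0 ≤ (i : ℝ) * (16 * e) := by positivity
    have : 0 ≤ (N : ℝ) * e := by positivity
    refine ⟨by positivity, by nlinarith, by nlinarith, by nlinarith⟩
  have fv : eVariationOn f univ ≤ ENNReal.ofReal (4 * N) := by
    let P : ℝ → ℝ := fun x => ∑ z ∈ I, ((Ici (α z)).indicator 1 x + (Ioi (α z + 3 * e)).indicator 1 x)
    have hP : ∀ x y, x ≤ y → |f y - f x| ≤ P y - P x := fun x y h => by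
      refine (abs_min_sub_min_le_max _ _ _ _).trans ?_
      rw [sub_self, abs_zero, max_eq_right (abs_nonneg _), ← Finset.sum_sub_distrib,
        ← Finset.sum_sub_distrib]
      refine (Finset.abs_sum_le_sum_abs _ _).trans (Finset.sum_le_sum fun z _ => ?_)
      simp only [J, indicator, mem_Icc, mem_Ici, mem_Ioi, Pi.one_apply]
      split_ifs <;> first | (norm_num; done) | (exfalso; grind)
    have P0 : ∀ x, 0 ≤ P x := fun x => Finset.sum_nonneg fun z _ =>
      add_nonneg (indicator_nonneg (fun _ _ => zero_le_one) _) (indicator_nonneg (fun _ _ => zero_le_one) _)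
    have P1 : ∀ x, P x ≤ 4 * N := fun x => by
      refine (Finset.sum_le_card_nsmul _ _ 2 fun z _ => ?_).trans (by rw [nsmul_eq_mul, cI]; linarith)
      simp only [indicator, Pi.one_apply]
      split_ifs <;> norm_num
    refine iSup_le fun ⟨l, u, hu, _⟩ => ?_
    simp only [edist_dist, Real.dist_eq]
    rw [← ENNReal.ofReal_sum_of_nonneg fun _ _ => abs_nonneg _]
    refine ENNReal.ofReal_le_ofReal ((Finset.sum_le_sum fun i _ => hP _ _ (hu i.le_succ)).trans ?_)
    rw [Finset.sum_range_sub fun i => P (u i)]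
    linarith [P0 (u 0), P1 (u l)]
  have cv : ∀ x (t : Ioi (0 : ℝ)), ∫ y, (t : ℝ)⁻¹ * φ (y / t) * |f (x - y)| =
      ∫ u, φ u * f (x - t * u) := fun x ⟨t, ht⟩ => by
    have t0 : 0 < t := ht
    have := Measure.integral_comp_mul_left (fun y => φ (y / t) * |f (x - y)|) t
    simp only [mul_div_cancel_left₀ _ t0.ne', abs_of_nonneg (f0 _), abs_of_pos (inv_pos.2 t0),
      smul_eq_mul] at this
    simp only [this, mul_assoc, integral_const_mul, abs_of_nonneg (f0 _)]
  have ci : ∀ x t : ℝ, Integrable fun u => φ u * f (x - t * u) := fun x t =>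
    φi.mul_bdd (c := 1) (fm.comp (by fun_prop)).aestronglyMeasurable
      (Filter.Eventually.of_forall fun u => by rw [Real.norm_of_nonneg (f0 _)]; exact f1 _)
  have on : ∀ j : ℕ, j < N ^ 2 → m ≤ M φ f (j * (8 * e)) := fun j hj => by
    have N0 : 0 < N := by exact_mod_cast (show (0 : ℝ) < N by linarith)
    have h1 := Nat.mod_lt j N0
    have h2 : j / N < N := Nat.div_lt_of_lt_mul (by rwa [sq] at hj)
    have h3 : (j : ℝ) = (j / N : ℕ) * N + (j % N : ℕ) := by exact_mod_cast (Nat.div_add_mod' j N).symm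
    obtain ⟨c1, c2, c3, c4⟩ := bd _ h1
    obtain ⟨d1, d2, d3, -⟩ := bd _ h2
    set t : ℝ := 2 + (j % N : ℕ) * (8 * e) - (j / N : ℕ) * N * (8 * e) with ht
    refine le_trans ?_ (le_ciSup ⟨1, ?_⟩ (⟨t, show 0 < t by linarith⟩ : Ioi (0 : ℝ)))
    · rw [cv]
      have : ∫ u, (γ' (u - 1) + γ' (-u - 1)) / 2 = m := by
        rw [integral_div, integral_add b1 b2, b3, b4]; ring
      rw [← this]
      refine integral_mono ((b1.add b2).div_const 2) (ci _ _) fun u => ?_
      have t1 : 0 < t := by linarith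
      have t2 : t ≤ 3 := by linarith
      by_cases h : u - 1 ∈ Ioc 0 e ∨ -u - 1 ∈ Ioc 0 e
      · have : f (j * (8 * e) - t * u) = 1 := by
          rcases h with ⟨h, h'⟩ | ⟨h, h'⟩
          · refine fo (j / N, false) (by simpa [I] using h2) _ ?_
            simp only [α, Bool.false_eq_true, if_false, mem_Icc]
            constructor <;> nlinarith
          · refine fo (j % N, true) (by simpa [I] using h1) _ ?_
            simp only [α, if_true, mem_Icc]
            constructor <;> nlinarith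
        simp only [this, mul_one, φ]
        linarith [γ'1 (u - 1), γ'1 (-u - 1)]
      · rw [not_or] at h
        simp only [γ', indicator_of_notMem h.1, indicator_of_notMem h.2, add_zero, zero_div]
        exact mul_nonneg (φ0 _) (f0 _)
    · rintro _ ⟨t, rfl⟩
      simp only [cv]
      rw [← φ1]
      exact integral_mono (ci _ _) φi fun u => mul_le_of_le_one_right (φ0 u) (f1 _)
  have off : ∀ j : ℕ, j < N ^ 2 → M φ f (j * (8 * e) + 4 * e) ≤ 3 / 4 * m := fun j hj => by
    have j1 : (j : ℝ) ≤ N ^ 2 := by exact_mod_cast hj.le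
    have j2 : 0 ≤ (j : ℝ) * (8 * e) := by positivity
    have j3 : (j : ℝ) * (8 * e) ≤ 1 / 128 := by nlinarith
    have mp : 0 < m := lt_of_lt_of_le (by positivity) m0
    have e5 := (bd 0 (by exact_mod_cast (show (0 : ℝ) < N by linarith))).2.2.2
    refine ciSup_le fun ⟨t, ht⟩ => ?_
    have t0 : 0 < t := ht
    rw [cv]
    set x := j * (8 * e) + 4 * e with hx
    rcases lt_or_ge t (1 / 2) with t1 | t1
    · refine le_trans (le_of_eq (integral_eq_zero_of_ae (Filter.Eventually.of_forall fun u => ?_)))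
        (by positivity)
      by_contra h
      obtain ⟨h1, h2⟩ := mul_ne_zero_iff.1 h
      have u1 : -2 ≤ u ∧ u ≤ 2 := by
        by_contra c
        refine h1 ?_
        simp only [φ]
        rw [γz (u - 1) fun d => c ⟨by linarith [d.1], by linarith [d.2]⟩,
          γz (-u - 1) fun d => c ⟨by linarith [d.2], by linarith [d.1]⟩]
        simp
      obtain ⟨i, hi, h3⟩ := fz _ h2
      obtain ⟨c1, c2, c3, c4⟩ := bd i hi
      rcases h3 with ⟨h3, -⟩ | ⟨-, h3⟩ <;> nlinarith [u1.1, u1.2]
    have s1 : Integrable fun u => S (x - t * u) := (Si.comp_sub_left x).comp_mul_left' t0.ne'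
    have s2 : ∫ u, S (x - t * u) ≤ 12 * N * e := by
      rw [Measure.integral_comp_mul_left (fun y => S (x - y)) t, integral_sub_left_eq_self, Sv,
        abs_of_pos (inv_pos.2 t0), smul_eq_mul, inv_mul_le_iff₀ t0]
      nlinarith [mul_pos he0 (show (0 : ℝ) < N by linarith)]
    have s3 : 1 / ε k * (12 * N * e) ≤ m / 4 := by
      have := e0 k
      rw [he, e1, show 1 / ε k * (12 * N * (ε k * r k)) = 12 * N * r k by field_simp]
      refine le_of_mul_le_mul_left ?_ (show (0 : ℝ) < N by linarith)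
      nlinarith [Nat.cast_nonneg (α := ℝ) k]
    have fin : ∀ F : ℝ → ℝ, Integrable F → ∫ u, F u = m →
        (∀ u, (γ' (u - 1) + γ' (-u - 1)) * f (x - t * u) ≤ F u) →
        ∫ u, φ u * f (x - t * u) ≤ 3 / 4 * m := fun F h1 h2 h3 => by
      have k0 : 0 ≤ 1 / ε k := by have := e0 k; positivity
      have := integral_mono (ci x t) ((h1.div_const 2).add (s1.const_mul (1 / ε k))) fun u => by
        have h4 : f (x - t * u) ≤ S (x - t * u) := min_le_right _ _
        have h5 := mul_le_mul_of_nonneg_right (add_le_add (γb (u - 1)) (γb (-u - 1))) (f0 (x - t * u))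
        have h6 := mul_le_mul_of_nonneg_left h4 k0
        have := h3 u
        simp only [φ, Pi.add_apply]
        linarith
      simp only [Pi.add_apply] at this
      rw [integral_add (h1.div_const 2) (s1.const_mul _), integral_div, integral_const_mul, h2] at this
      linarith [mul_le_mul_of_nonneg_left s2 k0]
    by_cases h : ∀ u, u - 1 ∈ Ioc 0 e → f (x - t * u) = 0
    · refine fin _ b2 b4 fun u => ?_
      have := mul_le_of_le_one_right (γ'0 (-u - 1)) (f1 (x - t * u))
      by_cases c : u - 1 ∈ Ioc 0 e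
      · rw [h u c, mul_zero]; exact γ'0 _
      · simpa only [γ', indicator_of_notMem c, zero_add] using this
    · push Not at h
      obtain ⟨v, ⟨v1, v2⟩, hv⟩ := h
      refine fin _ b1 b3 fun u => ?_
      have := mul_le_of_le_one_right (γ'0 (u - 1)) (f1 (x - t * u))
      by_cases c : -u - 1 ∈ Ioc 0 e
      · have : f (x - t * u) = 0 := by
          by_contra hu
          obtain ⟨i, hi, h3⟩ := fz _ hv
          obtain ⟨i', hi', h4⟩ := fz _ hu
          obtain ⟨c1, c2, c3, c4⟩ := bd i hi
          obtain ⟨d1, d2, d3, -⟩ := bd i' hi'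
          obtain ⟨u1, u2⟩ := c
          rcases h3 with ⟨h3, -⟩ | ⟨h3, h3'⟩
          · nlinarith
          rcases h4 with ⟨h4, h4'⟩ | ⟨-, h4⟩
          · have t3 : t ≤ 3 := by nlinarith
            rcases le_or_gt (i * N + i') j with q | q
            · have : ((i : ℝ) * N + i') * e ≤ j * e :=
                mul_le_mul_of_nonneg_right (by exact_mod_cast q) he0.le
              nlinarith
            · have : (j + 1 : ℝ) * e ≤ ((i : ℝ) * N + i') * e :=
                mul_le_mul_of_nonneg_right (by exact_mod_cast q) he0.le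
              nlinarith
          · nlinarith
        rw [this, mul_zero]; exact γ'0 _
      · simpa only [γ', indicator_of_notMem c, add_zero] using this
  refine ⟨f, (fv.trans_lt ENNReal.ofReal_lt_top).ne, ?_⟩
  have h1 := eVariationOn.sum_le (f := M φ f) (s := univ) (n := 2 * N ^ 2)
    (u := fun i => i * (4 * e)) (fun a b h => mul_le_mul_of_nonneg_right (by exact_mod_cast h)
      (by positivity)) fun _ => trivial
  refine lt_of_lt_of_le ?_ h1
  have h2 : ∀ l ≤ N ^ 2, ENNReal.ofReal (l * (m / 4)) ≤ ∑ i ∈ Finset.range (2 * l),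
      edist (M φ f ((i + 1 : ℕ) * (4 * e))) (M φ f (i * (4 * e))) := by
    intro l hl
    induction l with
    | zero => simp
    | succ l ih =>
      have mp : 0 < m := lt_of_lt_of_le (by positivity) m0
      rw [show 2 * (l + 1) = 2 * l + 1 + 1 by ring, Finset.sum_range_succ, Finset.sum_range_succ,
        Nat.cast_succ, add_mul, ENNReal.ofReal_add (by positivity) (by positivity)]
      refine le_trans (add_le_add (ih (by omega)) ?_) le_self_add
      rw [edist_dist, Real.dist_eq, abs_sub_comm]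
      refine ENNReal.ofReal_le_ofReal (le_trans ?_ (le_abs_self _))
      have c1 := on l hl
      have c2 := off l hl
      rw [show ((2 * l : ℕ) : ℝ) * (4 * e) = l * (8 * e) by push_cast; ring,
        show ((2 * l + 1 : ℕ) : ℝ) * (4 * e) = l * (8 * e) + 4 * e by push_cast; ring]
      linarith
  refine lt_of_lt_of_le (lt_of_le_of_lt (mul_le_mul_right fv _) ?_) (h2 _ le_rfl)
  rw [← ENNReal.ofReal_coe_nnreal, ← ENNReal.ofReal_mul C.coe_nonneg,
    ENNReal.ofReal_lt_ofReal_iff_of_nonneg (by positivity)]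
  push_cast
  nlinarith [C.coe_nonneg]

end Pool.Agent.Results.MP_0067de_an.Counter
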